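import Mathlib

set_option autoImplicit false
set_option linter.unusedSectionVars false

open Finset

namespace Pool.Agent.H243Z.RM

section General

theorem exists_max {X : Type} (P : X → Prop) (w : X → ℕ) (B : ℕ) (hB : ∀ x, P x → w x ≤ B)
    (h0 : ∃ x, P x) : ∃ x, P x ∧ ∀ y, P y → w y ≤ w x := by
  have hne : {n | ∃ x, P x ∧ w x = n}.Nonempty := by
    obtain ⟨x, hx⟩ := h0
    exact ⟨_, x, hx, rfl⟩
  have hbd : BddAbove {n | ∃ x, P x ∧ w x = n} := ⟨B, by rintro _ ⟨x, hx, rfl⟩; exact hB x hx⟩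
  obtain ⟨x, hx, e⟩ := Nat.sSup_mem hne hbd
  exact ⟨x, hx, fun y hy => e ▸ le_csSup hbd ⟨y, hy, rfl⟩⟩

theorem exists_choice {ι β : Type} [Fintype ι] [DecidableEq β] (t : ι → Finset β)
    (h : ∀ i, Fintype.card ι ≤ (t i).card) : ∃ f : ι → β, Function.Injective f ∧ ∀ i, f i ∈ t i := by
  classical
  refine (Finset.all_card_le_biUnion_card_iff_exists_injective t).1 fun s => ?_
  rcases s.eq_empty_or_nonempty with rfl | ⟨i, hi⟩
  · simp
  · exact (card_le_univ s).trans ((h i).trans (card_le_card (subset_biUnion_of_mem t hi)))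

theorem exists_inj {α β : Type} [DecidableEq β] (s : Finset α) (t : Finset β)
    (h : s.card ≤ t.card) : ∃ f : s → β, Function.Injective f ∧ ∀ a, f a ∈ t :=
  exists_choice (fun _ : s => t) (fun _ => by simpa using h)

end General

variable {V : Type} [DecidableEq V]

def Clq (R : V → V → Prop) (A : Finset V) : Prop := ∀ x ∈ A, ∀ y ∈ A, x ≠ y → R x y

def Join (R : V → V → Prop) (A B : Finset V) : Prop := ∀ x ∈ A, ∀ y ∈ B, R x y

omit [DecidableEq V] in
theorem Clq.mono {R : V → V → Prop} {A B : Finset V} (h : Clq R B) (hAB : A ⊆ B) : Clq R A :=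
  fun x hx y hy => h x (hAB hx) y (hAB hy)

omit [DecidableEq V] in
theorem Join.mono {R : V → V → Prop} {A B A' B' : Finset V} (h : Join R A B) (h1 : A' ⊆ A)
    (h2 : B' ⊆ B) : Join R A' B' := fun x hx y hy => h x (h1 hx) y (h2 hy)

open Classical in
/-- the `R`-neighbours of `x` in `A` -/
noncomputable def nbr (R : V → V → Prop) (x : V) (A : Finset V) : Finset V := A.filter (R x)

omit [DecidableEq V] in
theorem mem_nbr {R : V → V → Prop} {x y : V} {A : Finset V} : y ∈ nbr R x A ↔ y ∈ A ∧ R x y := by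
  classical
  unfold nbr
  convert Finset.mem_filter

omit [DecidableEq V] in
theorem nbr_subset (R : V → V → Prop) (x : V) (A : Finset V) : nbr R x A ⊆ A :=
  fun _ h => (mem_nbr.1 h).1

theorem nbr_sdiff (R : V → V → Prop) (x : V) (A Y : Finset V) :
    (nbr R x A).card ≤ (nbr R x (A \ Y)).card + Y.card := by
  refine le_trans (card_le_card (t := nbr R x (A \ Y) ∪ Y) fun y hy => ?_) (card_union_le _ _)
  by_cases h : y ∈ Y
  · exact mem_union_right _ h
  · exact mem_union_left _ (mem_nbr.2 ⟨mem_sdiff.2 ⟨(mem_nbr.1 hy).1, h⟩, (mem_nbr.1 hy).2⟩)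

/-- common `B`-neighbourhood of a set of vertices of small `R`-degree -/
theorem exists_common {R B : V → V → Prop} (hRB : ∀ x y, R x y ∨ B x y) (P Y : Finset V) (d : ℕ)
    (h : ∀ y ∈ Y, (nbr R y P).card ≤ d) :
    ∃ P' ⊆ P, P.card ≤ P'.card + d * Y.card ∧ Join B Y P' := by
  refine ⟨P \ Y.biUnion (fun y => nbr R y P), sdiff_subset, ?_, fun y hy x hx => ?_⟩
  · have h1 : (Y.biUnion (fun y => nbr R y P)).card ≤ d * Y.card := by
      rw [mul_comm]
      exact card_biUnion_le_card_mul _ _ _ h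
    have h2 := le_card_sdiff (Y.biUnion (fun y => nbr R y P)) P
    omega
  · obtain ⟨h1, h2⟩ := mem_sdiff.1 hx
    refine (hRB y x).resolve_left fun hr => h2 (mem_biUnion.2 ⟨y, hy, mem_nbr.2 ⟨h1, hr⟩⟩)

/-- many vertices of large degree, or almost all vertices have small degree -/
theorem dichotomy (R : V → V → Prop) (P Q : Finset V) (d j : ℕ) :
    (∃ Y ⊆ Q, Y.card = j ∧ ∀ y ∈ Y, d ≤ (nbr R y P).card) ∨
      (∃ Q' ⊆ Q, Q.card ≤ Q'.card + j ∧ ∀ y ∈ Q', (nbr R y P).card ≤ d) := by
  classical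
  by_cases h : j ≤ (Q.filter fun y => d ≤ (nbr R y P).card).card
  · obtain ⟨Y, hY, hc⟩ := exists_subset_card_eq h
    exact Or.inl ⟨Y, hY.trans (filter_subset _ _), hc, fun y hy => (mem_filter.1 (hY hy)).2⟩
  · refine Or.inr ⟨Q.filter fun y => ¬ d ≤ (nbr R y P).card, filter_subset _ _, ?_,
      fun y hy => (not_le.1 (mem_filter.1 hy).2).le⟩
    have := card_filter_add_card_filter_not (s := Q) (fun y => d ≤ (nbr R y P).card)
    omega

theorem ramsey (a b : ℕ) : ∃ N : ℕ, ∀ (V : Type) [DecidableEq V] (R B : V → V → Prop),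
    (∀ x y, R x y → R y x) → (∀ x y, B x y → B y x) → (∀ x y, R x y ∨ B x y) →
    ∀ S : Finset V, N ≤ S.card →
      (∃ A ⊆ S, A.card = a ∧ Clq R A) ∨ (∃ A ⊆ S, A.card = b ∧ Clq B A) := by
  induction a generalizing b with
  | zero => exact ⟨0, fun V _ R B _ _ _ S _ => Or.inl ⟨∅, by simp, rfl, by simp [Clq]⟩⟩
  | succ a iha =>
    induction b with
    | zero => exact ⟨0, fun V _ R B _ _ _ S _ => Or.inr ⟨∅, by simp, rfl, by simp [Clq]⟩⟩
    | succ b ihb =>
      obtain ⟨N₁, h₁⟩ := iha (b + 1)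
      obtain ⟨N₂, h₂⟩ := ihb
      refine ⟨N₁ + N₂ + 1, fun V _ R B hR hB hRB S hS => ?_⟩
      obtain ⟨x, hx⟩ : S.Nonempty := card_pos.1 (by omega)
      have hc : (S.erase x).card ≤ (nbr R x (S.erase x)).card + (nbr B x (S.erase x)).card := by
        refine le_trans (card_le_card fun y hy => ?_) (card_union_le _ _)
        rcases hRB x y with h | h
        · exact mem_union_left _ (mem_nbr.2 ⟨hy, h⟩)
        · exact mem_union_right _ (mem_nbr.2 ⟨hy, h⟩)
      rw [card_erase_of_mem hx] at hc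
      have ext : ∀ (Q : V → V → Prop), (∀ x y, Q x y → Q y x) → ∀ A ⊆ nbr Q x (S.erase x),
          Clq Q A → insert x A ⊆ S ∧ (insert x A).card = A.card + 1 ∧ Clq Q (insert x A) := by
        intro Q hQ A hA hcl
        refine ⟨insert_subset hx (hA.trans ((nbr_subset _ _ _).trans (erase_subset _ _))),
          card_insert_of_notMem fun h => by simpa using (mem_nbr.1 (hA h)).1, ?_⟩
        intro u hu v hv huv
        rcases mem_insert.1 hu with rfl | hu' <;> rcases mem_insert.1 hv with rfl | hv'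
        · exact absurd rfl huv
        · exact (mem_nbr.1 (hA hv')).2
        · exact hQ _ _ (mem_nbr.1 (hA hu')).2
        · exact hcl u hu' v hv' huv
      have sub : ∀ (Q : V → V → Prop), nbr Q x (S.erase x) ⊆ S :=
        fun Q => (nbr_subset _ _ _).trans (erase_subset _ _)
      by_cases h : N₁ ≤ (nbr R x (S.erase x)).card
      · rcases h₁ V R B hR hB hRB _ h with ⟨A, hA, hc', hcl⟩ | ⟨A, hA, hc', hcl⟩
        · obtain ⟨e1, e2, e3⟩ := ext R hR A hA hcl
          exact Or.inl ⟨_, e1, by rw [e2, hc'], e3⟩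
        · exact Or.inr ⟨A, hA.trans (sub R), hc', hcl⟩
      · rcases h₂ V R B hR hB hRB (nbr B x (S.erase x)) (by omega) with
          ⟨A, hA, hc', hcl⟩ | ⟨A, hA, hc', hcl⟩
        · exact Or.inl ⟨A, hA.trans (sub B), hc', hcl⟩
        · obtain ⟨e1, e2, e3⟩ := ext B hB A hA hcl
          exact Or.inr ⟨_, e1, by rw [e2, hc'], e3⟩

theorem halve {R B : V → V → Prop} (hRB : ∀ x y, R x y ∨ B x y) (m : ℕ) (Y : Finset V) :
    ∀ A : Finset V, 2 ^ Y.card * m ≤ A.card →
      ∃ X ⊆ A, m ≤ X.card ∧ ∀ y ∈ Y, (∀ x ∈ X, R y x) ∨ (∀ x ∈ X, B y x) := by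
  induction Y using Finset.induction_on with
  | empty => exact fun A hA => ⟨A, Subset.refl _, by simpa using hA, by simp⟩
  | insert y Y hy ih =>
    intro A hA
    rw [card_insert_of_notMem hy, pow_succ] at hA
    have hc : A.card ≤ (nbr R y A).card + (nbr B y A).card := by
      refine le_trans (card_le_card fun z hz => ?_) (card_union_le _ _)
      rcases hRB y z with h | h
      · exact mem_union_left _ (mem_nbr.2 ⟨hz, h⟩)
      · exact mem_union_right _ (mem_nbr.2 ⟨hz, h⟩)
    by_cases h : 2 ^ Y.card * m ≤ (nbr R y A).card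
    · obtain ⟨X, hX, h1, h2⟩ := ih _ h
      refine ⟨X, hX.trans (nbr_subset _ _ _), h1, fun z hz => ?_⟩
      rcases mem_insert.1 hz with rfl | hz
      · exact Or.inl fun x hx => (mem_nbr.1 (hX hx)).2
      · exact h2 z hz
    · obtain ⟨X, hX, h1, h2⟩ := ih (nbr B y A) (by nlinarith)
      refine ⟨X, hX.trans (nbr_subset _ _ _), h1, fun z hz => ?_⟩
      rcases mem_insert.1 hz with rfl | hz
      · exact Or.inr fun x hx => (mem_nbr.1 (hX hx)).2
      · exact h2 z hz

theorem bip_ramsey {R B : V → V → Prop} (hRB : ∀ x y, R x y ∨ B x y) (m : ℕ) (A C : Finset V)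
    (hA : 2 ^ (2 * m) * m ≤ A.card) (hC : 2 * m ≤ C.card) :
    ∃ X ⊆ A, ∃ Y ⊆ C, X.card = m ∧ Y.card = m ∧ (Join R Y X ∨ Join B Y X) := by
  classical
  obtain ⟨Y₀, hY₀, hc⟩ := exists_subset_card_eq hC
  obtain ⟨X₀, hX₀, h1, h2⟩ := halve hRB m Y₀ A (by rwa [hc])
  obtain ⟨X, hX, hcX⟩ := exists_subset_card_eq h1
  have := card_filter_add_card_filter_not (s := Y₀) (fun y => ∀ x ∈ X₀, R y x)
  by_cases h : m ≤ (Y₀.filter fun y => ∀ x ∈ X₀, R y x).card
  · obtain ⟨Y, hY, hcY⟩ := exists_subset_card_eq h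
    exact ⟨X, hX.trans hX₀, Y, hY.trans ((filter_subset _ _).trans hY₀), hcX, hcY,
      Or.inl fun y hy x hx => (mem_filter.1 (hY hy)).2 x (hX hx)⟩
  · obtain ⟨Y, hY, hcY⟩ := exists_subset_card_eq
      (s := Y₀.filter fun y => ¬ ∀ x ∈ X₀, R y x) (n := m) (by omega)
    exact ⟨X, hX.trans hX₀, Y, hY.trans ((filter_subset _ _).trans hY₀), hcX, hcY,
      Or.inr fun y hy x hx => ((h2 y (mem_filter.1 (hY hy)).1).resolve_left
        (mem_filter.1 (hY hy)).2) x (hX hx)⟩

variable {W : Type} [Fintype W] [DecidableEq W] (G : SimpleGraph W)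

/-- `n` vertex-disjoint copies of `G` in the relation `R`, inside `S` -/
def Pack (R : V → V → Prop) (S : Finset V) (n : ℕ) : Prop :=
  ∃ f : Fin n × W → V, Function.Injective f ∧ (∀ p, f p ∈ S) ∧
    ∀ i a b, G.Adj a b → R (f (i, a)) (f (i, b))

variable {G}
variable {R : V → V → Prop}

omit [Fintype W] [DecidableEq W] [DecidableEq V] in
theorem pack_zero (S : Finset V) : Pack G R S 0 :=
  ⟨fun p => p.1.elim0, fun p => p.1.elim0, fun p => p.1.elim0, fun i => i.elim0⟩

omit [Fintype W] [DecidableEq W] [DecidableEq V] in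
theorem Pack.mono {S T : Finset V} {n m : ℕ} (h : Pack G R S n) (hST : S ⊆ T) (hm : m ≤ n) :
    Pack G R T m := by
  obtain ⟨f, h1, h2, h3⟩ := h
  refine ⟨fun p => f (Fin.castLE hm p.1, p.2), fun p q e => ?_, fun p => hST (h2 _),
    fun i a b hab => h3 _ a b hab⟩
  have := h1 e
  simp only [Prod.mk.injEq, Fin.castLE_inj] at this
  exact Prod.ext this.1 this.2

omit [Fintype W] [DecidableEq W] in
theorem Pack.add {S T : Finset V} {n m : ℕ} (h : Pack G R S n) (h' : Pack G R T m)
    (hd : Disjoint S T) : Pack G R (S ∪ T) (n + m) := by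
  obtain ⟨f, h1, h2, h3⟩ := h
  obtain ⟨g, g1, g2, g3⟩ := h'
  let F : (Fin n ⊕ Fin m) × W → V := fun p => Sum.elim (fun i => f (i, p.2)) (fun i => g (i, p.2)) p.1
  have hF : Function.Injective F := by
    rintro ⟨i | i, a⟩ ⟨j | j, b⟩ e
    · have := h1 e
      simp only [Prod.mk.injEq] at this
      rw [this.1, this.2]
    · have e' : f (i, a) = g (j, b) := e
      exact absurd (e' ▸ g2 (j, b) : f (i, a) ∈ T) (disjoint_left.1 hd (h2 _))
    · have e' : g (i, a) = f (j, b) := e
      exact absurd (e' ▸ g2 (i, a) : f (j, b) ∈ T) (disjoint_left.1 hd (h2 _))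
    · have := g1 e
      simp only [Prod.mk.injEq] at this
      rw [this.1, this.2]
  refine ⟨fun p => F (finSumFinEquiv.symm p.1, p.2), fun p q e => ?_, fun p => ?_,
    fun i a b hab => ?_⟩
  · have := hF e
    simp only [Prod.mk.injEq, EmbeddingLike.apply_eq_iff_eq] at this
    exact Prod.ext this.1 this.2
  · dsimp only
    rcases h : finSumFinEquiv.symm p.1 with i | i
    · exact mem_union_left _ (h2 _)
    · exact mem_union_right _ (g2 _)
  · dsimp only
    rcases h : finSumFinEquiv.symm i with i | i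
    · exact h3 _ a b hab
    · exact g3 _ a b hab

omit [Fintype W] [DecidableEq W] in
theorem pack_biUnion {ι : Type} [DecidableEq ι] (J : Finset ι) (S : ι → Finset V) (m : ℕ)
    (hd : ∀ i ∈ J, ∀ j ∈ J, i ≠ j → Disjoint (S i) (S j)) (h : ∀ i ∈ J, Pack G R (S i) m) :
    Pack G R (J.biUnion S) (J.card * m) := by
  induction J using Finset.induction_on with
  | empty => simpa using pack_zero _
  | insert i J hi ih =>
    rw [biUnion_insert, card_insert_of_notMem hi, add_mul, one_mul, add_comm]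
    refine (h i (mem_insert_self _ _)).add (ih (fun a ha b hb => hd a (mem_insert_of_mem ha) b
      (mem_insert_of_mem hb)) (fun a ha => h a (mem_insert_of_mem ha))) ?_
    rw [disjoint_biUnion_right]
    exact fun j hj => hd i (mem_insert_self _ _) j (mem_insert_of_mem hj) (fun e => hi (e ▸ hj))

omit [Fintype W] [DecidableEq W] [DecidableEq V] in
theorem pack_one {S : Finset V} (f : W → V) (h1 : Function.Injective f) (h2 : ∀ a, f a ∈ S)
    (h3 : ∀ a b, G.Adj a b → R (f a) (f b)) : Pack G R S 1 :=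
  ⟨fun p => f p.2, fun _ _ e => Prod.ext (Subsingleton.elim _ _) (h1 e), fun _ => h2 _,
    fun _ a b hab => h3 a b hab⟩

/-- `I` is an independent set of `G` -/
def Ind (G : SimpleGraph W) (I : Finset W) : Prop := ∀ a ∈ I, ∀ b ∈ I, ¬ G.Adj a b

theorem copy_one (hR : ∀ x y, R x y → R y x) {I : Finset W} (hI : Ind G I) {e : ℕ}
    (hk : Fintype.card W = I.card + e) {B Z : Finset V} (hd : Disjoint B Z) (hB : Clq R B)
    (hJ : Join R B Z) (h1 : e ≤ B.card) (h2 : I.card ≤ Z.card) : Pack G R (B ∪ Z) 1 := by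
  obtain ⟨g, g1, g2⟩ := exists_inj I Z h2
  obtain ⟨f, f1, f2⟩ := exists_inj Iᶜ B (by rw [card_compl]; omega)
  refine pack_one (fun a => if h : a ∈ I then g ⟨a, h⟩ else f ⟨a, mem_compl.2 h⟩)
    (fun a b e => ?_) (fun a => ?_) (fun a b hab => ?_)
  · by_cases ha : a ∈ I <;> by_cases hb : b ∈ I <;> simp only [ha, hb, dif_pos, dif_neg,
      not_false_eq_true] at e
    · exact congrArg Subtype.val (g1 e)
    · exact absurd (e ▸ g2 _) (disjoint_left.1 hd (f2 _))
    · exact absurd (e.symm ▸ g2 _) (disjoint_left.1 hd (f2 _))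
    · exact congrArg Subtype.val (f1 e)
  · by_cases ha : a ∈ I <;> simp only [ha, dif_pos, dif_neg, not_false_eq_true]
    · exact mem_union_right _ (g2 _)
    · exact mem_union_left _ (f2 _)
  · by_cases ha : a ∈ I <;> by_cases hb : b ∈ I <;> simp only [ha, hb, dif_pos, dif_neg,
      not_false_eq_true]
    · exact absurd hab (hI a ha b hb)
    · exact hR _ _ (hJ _ (f2 _) _ (g2 _))
    · exact hJ _ (f2 _) _ (g2 _)
    · exact hB _ (f2 _) _ (f2 _) fun e => hab.ne (congrArg Subtype.val (f1 e))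

theorem pack_tie (hR : ∀ x y, R x y → R y x) {I : Finset W} (hI : Ind G I) {e : ℕ}
    (hk : Fintype.card W = I.card + e) (m : ℕ) : ∀ {B Z : Finset V}, Disjoint B Z → Clq R B →
    Join R B Z → e * m ≤ B.card → I.card * m ≤ Z.card → Pack G R (B ∪ Z) m := by
  induction m with
  | zero => exact fun _ _ _ _ _ => pack_zero _
  | succ m ih =>
    intro B Z hd hB hJ h1 h2
    rw [mul_add, mul_one] at h1 h2
    obtain ⟨B₁, hB₁, c1⟩ := exists_subset_card_eq (s := B) (n := e) (by omega)
    obtain ⟨Z₁, hZ₁, c2⟩ := exists_subset_card_eq (s := Z) (n := I.card) (by omega)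
    have p1 := copy_one hR hI hk (hd.mono hB₁ hZ₁) (hB.mono hB₁) (hJ.mono hB₁ hZ₁) c1.ge c2.ge
    have p2 := ih (B := B \ B₁) (Z := Z \ Z₁) (hd.mono sdiff_subset sdiff_subset)
      (hB.mono sdiff_subset) (hJ.mono sdiff_subset sdiff_subset)
      (by rw [card_sdiff_of_subset hB₁]; omega) (by rw [card_sdiff_of_subset hZ₁]; omega)
    refine (p2.add p1 ?_).mono ?_ le_rfl
    · rw [disjoint_left] at hd ⊢
      grind
    · grind

theorem pack_absorb (hR : ∀ x y, R x y → R y x) {I : Finset W} (hI : Ind G I) {e : ℕ}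
    (he : 1 ≤ e) (hk : Fintype.card W = I.card + e) (X : Finset V) :
    ∀ (m : ℕ) {B Z : Finset V}, Disjoint B Z → Disjoint X B → Disjoint X Z → Clq R B →
    Join R B Z → Join R X Z → (∀ x ∈ X, e * X.card ≤ (nbr R x B).card) →
    e * m ≤ B.card + X.card → I.card * m ≤ Z.card → Pack G R (B ∪ X ∪ Z) m := by
  induction X using Finset.induction_on with
  | empty =>
    intro m B Z hd _ _ hB hJ _ _ h1 h2
    simpa using pack_tie hR hI hk m hd hB hJ (by simpa using h1) h2
  | insert x X hx ih =>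
    intro m B Z hd hXB hXZ hB hJ hJX hdeg h1 h2
    cases m with
    | zero => exact pack_zero _
    | succ m =>
    rw [card_insert_of_notMem hx] at hdeg h1
    rw [mul_add, mul_one] at h1 h2 hdeg
    have hxB : x ∉ B := disjoint_left.1 hXB (mem_insert_self _ _)
    have hdx := hdeg x (mem_insert_self _ _)
    obtain ⟨B₁, hB₁, c1⟩ := exists_subset_card_eq (s := nbr R x B) (n := e - 1) (by omega)
    have hB₁' : B₁ ⊆ B := hB₁.trans (nbr_subset _ _ _)
    obtain ⟨Z₁, hZ₁, c2⟩ := exists_subset_card_eq (s := Z) (n := I.card) (by omega)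
    have p1 : Pack G R (insert x B₁ ∪ Z₁) 1 := by
      refine copy_one hR hI hk ?_ ?_ ?_ ?_ c2.ge
      · rw [disjoint_left] at hd hXZ ⊢
        grind
      · intro u hu v hv huv
        rcases mem_insert.1 hu with rfl | hu' <;> rcases mem_insert.1 hv with rfl | hv'
        · exact absurd rfl huv
        · exact (mem_nbr.1 (hB₁ hv')).2
        · exact hR _ _ (mem_nbr.1 (hB₁ hu')).2
        · exact hB u (hB₁' hu') v (hB₁' hv') huv
      · intro u hu v hv
        rcases mem_insert.1 hu with rfl | hu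
        · exact hJX _ (mem_insert_self _ _) _ (hZ₁ hv)
        · exact hJ _ (hB₁' hu) _ (hZ₁ hv)
      · rw [card_insert_of_notMem fun h => hxB (hB₁' h)]; omega
    have p2 := ih m (B := B \ B₁) (Z := Z \ Z₁) (hd.mono sdiff_subset sdiff_subset)
      (hXB.mono (subset_insert _ _) sdiff_subset) (hXZ.mono (subset_insert _ _) sdiff_subset)
      (hB.mono sdiff_subset) (hJ.mono sdiff_subset sdiff_subset)
      (hJX.mono (subset_insert _ _) sdiff_subset)
      (fun y hy => by
        have := hdeg y (mem_insert_of_mem hy)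
        have := nbr_sdiff R y B B₁
        omega)
      (by rw [card_sdiff_of_subset hB₁']; have := card_le_card hB₁'; omega)
      (by rw [card_sdiff_of_subset hZ₁]; omega)
    refine (p2.add p1 ?_).mono ?_ le_rfl
    · rw [disjoint_left] at hd hXB hXZ ⊢
      grind
    · grind

omit [Fintype W] [DecidableEq W] in
theorem ind_empty : Ind G ∅ := by simp [Ind]

theorem pack_clique (hR : ∀ x y, R x y → R y x) {A : Finset V} (hA : Clq R A) {m : ℕ}
    (h : Fintype.card W * m ≤ A.card) : Pack G R A m := by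
  simpa using pack_tie (G := G) hR ind_empty (e := Fintype.card W) (by simp) m (B := A) (Z := ∅)
    (by simp) hA (by simp [Join]) h (by simp)

theorem pack_absorb0 (hR : ∀ x y, R x y → R y x) (hk : 1 ≤ Fintype.card W) {A X : Finset V}
    (hd : Disjoint X A) (hA : Clq R A)
    (hdeg : ∀ x ∈ X, Fintype.card W * X.card ≤ (nbr R x A).card) {m : ℕ}
    (h : Fintype.card W * m ≤ A.card + X.card) : Pack G R (A ∪ X) m := by
  simpa using pack_absorb (G := G) hR ind_empty hk (by simp) X m (B := A) (Z := ∅)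
    (by simp) hd (by simp) hA (by simp [Join]) (by simp [Join]) hdeg h (by simp)

end Pool.Agent.H243Z.RM
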