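import Pool.Agent.H243Z.RM.Struct

set_option autoImplicit false
set_option linter.unusedSectionVars false

open Finset

namespace Pool.Agent.H243Z.RM

variable {W : Type} [Fintype W] [DecidableEq W] {G : SimpleGraph W}

/-- `F → nG`, with the two colours given by a symmetric relation and its complement -/
def Arrow (G : SimpleGraph W) {X : Type} [Fintype X] (F : X → X → Prop) (n : ℕ) : Prop :=
  ∀ c : X → X → Prop, (∀ x y, c x y → c y x) →
    Pack G (fun x y => F x y ∧ c x y) univ n ∨ Pack G (fun x y => F x y ∧ ¬ c x y) univ n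

omit [Fintype W] [DecidableEq W] in
theorem Pack.imp {X : Type} {R R' : X → X → Prop} {S : Finset X} {n : ℕ} (h : Pack G R S n)
    (hR : ∀ x y, R x y → R' x y) : Pack G R' S n := by
  obtain ⟨f, h1, h2, h3⟩ := h
  exact ⟨f, h1, h2, fun i a b hab => hR _ _ (h3 i a b hab)⟩

omit [Fintype W] [DecidableEq W] in
theorem Arrow.pack {X : Type} [Fintype X] {F : X → X → Prop} {n : ℕ} (h : Arrow G F n) :
    Pack G F univ n := by
  rcases h (fun _ _ => True) (fun _ _ _ => trivial) with h | h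
  · exact h.imp fun _ _ h => h.1
  · exact h.imp fun _ _ h => h.1

theorem final_step {V : Type} [DecidableEq V] [Nonempty V] {R B : V → V → Prop}
    (hR : ∀ x y, R x y → R y x) (hRB : ∀ x y, R x y ∨ B x y) {Y : Finset V} {n : ℕ}
    (h1 : NoRed G R Y) (h2 : NoExt G B Y n) (hn : 1 ≤ n) {X : Type} [Fintype X] [DecidableEq X]
    {F : X → X → Prop} (harrow : Arrow G F n) {s : ℕ} (hs : Fintype.card W * s ≤ Y.card) :
    Pack G F univ (n + s) := by
  classical
  by_contra hcon
  obtain ⟨s', ⟨hs', f', f1, -, f3⟩, hmax⟩ := exists_max (fun s' => s' ≤ s ∧ Pack G F univ s') id s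
    (fun _ h => h.1) ⟨0, Nat.zero_le _, pack_zero _⟩
  set Z := (univ : Finset (Fin s' × W)).image f' with hZ
  have hZp : Pack G F Z s' := ⟨f', f1, fun p => mem_image_of_mem _ (mem_univ _), f3⟩
  have hZc : Z.card ≤ Y.card := by
    refine card_image_le.trans (le_trans ?_ hs)
    rw [card_univ, Fintype.card_prod, Fintype.card_fin, mul_comm]
    exact Nat.mul_le_mul_left _ hs'
  have hno : ¬ Pack G F (univ \ Z) n := by
    intro h
    have h' := (h.add hZp sdiff_disjoint).mono (subset_univ _) le_rfl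
    rcases hs'.eq_or_lt with e | e
    · exact hcon (e ▸ h')
    · have := hmax (s' + 1) ⟨e, h'.mono (Subset.refl _) (by omega)⟩
      simp at this
  obtain ⟨φ₀, φ1, φ2⟩ := exists_inj Z Y hZc
  let φ : X → V := fun x => if h : x ∈ Z then φ₀ ⟨x, h⟩ else Classical.arbitrary V
  have φY : ∀ x ∈ Z, φ x ∈ Y := fun x hx => by simp only [φ, hx, dif_pos]; exact φ2 _
  have φi : ∀ x ∈ Z, ∀ y ∈ Z, φ x = φ y → x = y := fun x hx y hy e => by
    simp only [φ, hx, hy, dif_pos] at e
    exact congrArg Subtype.val (φ1 e)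
  rcases harrow (fun x y => (x ∈ Z ∧ y ∈ Z ∧ R (φ x) (φ y)) ∨ (x ∉ Z ∧ y ∉ Z)) (by
      rintro x y (⟨a, b, c⟩ | ⟨a, b⟩)
      · exact Or.inl ⟨b, a, hR _ _ c⟩
      · exact Or.inr ⟨b, a⟩) with ⟨f, g1, -, g3⟩ | ⟨f, g1, -, g3⟩
  · by_cases h : ∀ p, f p ∉ Z
    · exact hno ⟨f, g1, fun p => mem_sdiff.2 ⟨mem_univ _, h p⟩, fun i a b hab => (g3 i a b hab).1⟩
    · push Not at h
      obtain ⟨⟨i, a₀⟩, h⟩ := h
      refine h1 (univ.filter fun a => f (i, a) ∈ Z) (fun a => φ (f (i, a)))
        ⟨a₀, mem_filter.2 ⟨mem_univ _, h⟩⟩ (fun a ha b hab => ?_) (fun a ha b hb e => ?_)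
        (fun a ha => φY _ (mem_filter.1 ha).2) (fun a ha b hb hab => ?_)
      · rcases (g3 i a b hab).2 with h' | h'
        · exact mem_filter.2 ⟨mem_univ _, h'.2.1⟩
        · exact absurd (mem_filter.1 ha).2 h'.1
      · exact (Prod.ext_iff.1 (g1 (φi _ (mem_filter.1 ha).2 _ (mem_filter.1 hb).2 e))).2
      · rcases (g3 i a b hab).2 with h' | h'
        · exact h'.2.2
        · exact absurd (mem_filter.1 ha).2 h'.1
  · refine h2 (fun i => univ.filter fun a => f (i, a) ∈ Z) (fun p => φ (f p))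
      (fun i a ha b hb hab => ?_) (fun p hp q hq e => ?_) (fun i a ha => φY _ (mem_filter.1 ha).2)
      (fun i a ha b hb hab => ?_)
    · refine (g3 i a b hab).2 (Or.inr ⟨fun h => ?_, fun h => ?_⟩)
      · exact mem_compl.1 ha (mem_filter.2 ⟨mem_univ _, h⟩)
      · exact mem_compl.1 hb (mem_filter.2 ⟨mem_univ _, h⟩)
    · exact g1 (φi _ (mem_filter.1 hp).2 _ (mem_filter.1 hq).2 e)
    · exact (hRB _ _).resolve_left fun h => (g3 i a b hab).2
        (Or.inl ⟨(mem_filter.1 ha).2, (mem_filter.1 hb).2, h⟩)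

theorem main_core (G : SimpleGraph W) (hiso : ∀ a, ∃ b, G.Adj a b) :
    ∃ n₀ : ℕ, ∀ n, n₀ ≤ n → ∀ (V : Type) [Fintype V] [DecidableEq V] (R B : V → V → Prop),
    (∀ x y, R x y → R y x) → (∀ x y, B x y → B y x) → (∀ x y, R x y ∨ B x y) →
    ¬ Pack G R univ n → ¬ Pack G B univ n →
    ∀ (X : Type) [Fintype X] [DecidableEq X] (F : X → X → Prop), Arrow G F n →
    ∀ t, Fintype.card W * t ≤ Fintype.card V + 1 → Pack G F univ t := by
  classical
  rcases isEmpty_or_nonempty W with hW | hW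
  · refine ⟨0, fun n _ V _ _ R B _ _ _ h1 => absurd ⟨fun p => isEmptyElim p.2,
      fun p => isEmptyElim p.2, fun p => isEmptyElim p.2, fun _ a => isEmptyElim a⟩ h1⟩
  obtain ⟨I, hI, hmax⟩ := exists_max (Ind G) card (Fintype.card W) (fun I _ => card_le_univ I)
    ⟨∅, by simp [Ind]⟩
  have hind : ∀ I : Finset W, Ind G I → I.card + 1 ≤ Fintype.card W := by
    intro J hJ
    obtain ⟨a⟩ := hW
    obtain ⟨b, hab⟩ := hiso a
    refine card_lt_card (ssubset_univ_iff.2 fun e => ?_)
    exact hJ a (e ▸ mem_univ _) b (e ▸ mem_univ _) hab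
  obtain ⟨e, he⟩ : ∃ e, Fintype.card W = I.card + e := ⟨_, (Nat.add_sub_cancel' (card_le_univ I)).symm⟩
  have he1 : 1 ≤ e := by have := hind I hI; omega
  obtain ⟨n₀, hn₀⟩ := structure_thm G hI he1 he rfl hind
  refine ⟨n₀ + 1, fun n hn V _ _ R B hR hB hRB h1 h2 X _ _ F hF t ht => ?_⟩
  by_cases htn : t ≤ n
  · exact hF.pack.mono (Subset.refl _) htn
  obtain ⟨s, rfl⟩ : ∃ s, t = n + s := ⟨t - n, by omega⟩
  rw [mul_add] at ht
  by_cases hV : (Fintype.card W + e) * n ≤ Fintype.card V + 1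
  · have : Nonempty V := by
      rw [← Fintype.card_pos_iff]
      have : 2 * 1 ≤ (Fintype.card W + e) * n := Nat.mul_le_mul (by omega) (by omega)
      omega
    obtain ⟨Y, hY, h | h⟩ := hn₀ n (by omega) V R B hR hB hRB hV h1 h2
    · exact final_step hR hRB h.1 h.2 (by omega) hF (by omega)
    · exact final_step hB (fun x y => (hRB x y).symm) h.1 h.2 (by omega) hF (by omega)
  · refine final_step (V := ℕ) (R := fun _ _ => False) (B := fun _ _ => True)
      (Y := range (e * n - 1)) (fun _ _ h => h) (fun _ _ => Or.inr trivial) ?_ ?_ (by omega) hF ?_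
    · rintro C g ⟨a, ha⟩ h1 - - h4
      obtain ⟨b, hab⟩ := hiso a
      exact h4 a ha b (h1 a ha b hab) hab
    · intro D g h1 h2 h3 _
      have e1 : (univ.filter fun p : Fin n × W => p.2 ∈ D p.1).card ≤ (range (e * n - 1)).card :=
        card_le_card_of_injOn g (fun p hp => by
          exact h3 p.1 p.2 (mem_filter.1 hp).2) (fun p hp q hq => h2 (mem_filter.1 hp).2
            (mem_filter.1 hq).2)
      have e2 : (univ.filter fun p : Fin n × W => p.2 ∈ D p.1).card = ∑ i, (D i).card := by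
        rw [card_eq_sum_card_fiberwise (f := Prod.fst) (t := univ) (fun _ _ => by simp)]
        refine sum_congr rfl fun i _ => ?_
        refine card_bij (fun p _ => p.2) (fun p hp => ?_) (fun p hp q hq e => ?_) (fun a ha => ?_)
        · simp only [mem_filter, mem_univ, true_and] at hp
          exact hp.2 ▸ hp.1
        · simp only [mem_filter, mem_univ, true_and] at hp hq
          exact Prod.ext (hp.2.trans hq.2.symm) e
        · exact ⟨(i, a), by simpa using ha, rfl⟩
      have e3 : ∑ _i : Fin n, e ≤ ∑ i, (D i).card := sum_le_sum fun i _ => by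
        have := hmax _ (h1 i)
        rw [card_compl] at this
        omega
      rw [sum_const, card_univ, Fintype.card_fin, smul_eq_mul, mul_comm] at e3
      rw [card_range] at e1
      have : 1 * 1 ≤ e * n := Nat.mul_le_mul he1 (by omega)
      omega
    · rw [card_range]
      rw [add_mul] at hV
      omega

/-- `G` without its isolated vertices -/
def core (G : SimpleGraph W) : SimpleGraph {a // ∃ b, G.Adj a b} := G.comap Subtype.val

omit [Fintype W] [DecidableEq W] in
theorem Pack.core {X : Type} {F : X → X → Prop} {S : Finset X} {n : ℕ} (h : Pack G F S n) :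
    Pack (core G) F S n := by
  obtain ⟨f, h1, h2, h3⟩ := h
  refine ⟨fun p => f (p.1, p.2.1), fun p q e => ?_, fun p => h2 _, fun i a b hab => h3 i _ _ hab⟩
  have := Prod.ext_iff.1 (h1 e)
  exact Prod.ext this.1 (Subtype.ext this.2)

omit [DecidableEq W] in
theorem Pack.of_core {X : Type} [Fintype X] {F : X → X → Prop} {n : ℕ}
    (h : Pack (RM.core G) F univ n) (hc : Fintype.card W * n ≤ Fintype.card X) :
    Pack G F univ n := by
  classical
  obtain ⟨f, h1, -, h3⟩ := h
  obtain ⟨j⟩ : Nonempty (Fin n × W ↪ X) := Function.Embedding.nonempty_of_card_le (by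
    rw [Fintype.card_prod, Fintype.card_fin, mul_comm]; exact hc)
  obtain ⟨σ, hσ⟩ := Equiv.Perm.exists_extending_pair
    (f := fun p : Fin n × {a // ∃ b, G.Adj a b} => j (p.1, p.2.1)) (g := f) (fun p q e => by
      have := Prod.ext_iff.1 (j.injective e)
      exact Prod.ext this.1 (Subtype.ext this.2)) h1
  refine ⟨fun p => σ (j p), σ.injective.comp j.injective, fun _ => mem_univ _,
    fun i a b hab => ?_⟩
  have e1 := hσ (i, ⟨a, b, hab⟩)
  have e2 := hσ (i, ⟨b, a, hab.symm⟩)
  dsimp only at e1 e2 ⊢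
  rw [e1, e2]
  exact h3 i _ _ hab

theorem main_gen (G : SimpleGraph W) :
    ∃ n₀ : ℕ, ∀ n, n₀ ≤ n → ∀ (V : Type) [Fintype V] [DecidableEq V] (R B : V → V → Prop),
    (∀ x y, R x y → R y x) → (∀ x y, B x y → B y x) → (∀ x y, R x y ∨ B x y) →
    ¬ Pack G R univ n → ¬ Pack G B univ n → Fintype.card W * n ≤ Fintype.card V →
    ∀ (X : Type) [Fintype X] [DecidableEq X] (F : X → X → Prop), Arrow G F n →
    ∀ t, Fintype.card W * t ≤ Fintype.card V + 1 → Fintype.card W * t ≤ Fintype.card X →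
    Pack G F univ t := by
  classical
  obtain ⟨n₀, h⟩ := main_core (core G) (fun ⟨a, b, hab⟩ => ⟨⟨b, a, hab.symm⟩, hab⟩)
  refine ⟨n₀, fun n hn V _ _ R B hR hB hRB h1 h2 hV X _ _ F hF t ht hX => Pack.of_core
    (h n hn V R B hR hB hRB (fun h => h1 (h.of_core hV)) (fun h => h2 (h.of_core hV)) X F
      (fun c hc => (hF c hc).imp Pack.core Pack.core) t (le_trans ?_ ht)) hX⟩
  exact Nat.mul_le_mul_right _ (Fintype.card_subtype_le _)

end Pool.Agent.H243Z.RM
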