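import Pool.Agent.H243Z.RM.Ties

set_option autoImplicit false
set_option linter.unusedSectionVars false

open Finset

namespace Pool.Agent.H243Z.RM

variable {V : Type} [DecidableEq V]
variable {W : Type} [Fintype W] [DecidableEq W] {G : SimpleGraph W}

/-- no copy in `R`, inside `Y`, of a nonempty union of components of `G` -/
def NoRed (G : SimpleGraph W) (R : V → V → Prop) (Y : Finset V) : Prop :=
  ∀ (C : Finset W) (g : W → V), C.Nonempty → (∀ a ∈ C, ∀ b, G.Adj a b → b ∈ C) →
    Set.InjOn g C → (∀ a ∈ C, g a ∈ Y) → (∀ a ∈ C, ∀ b ∈ C, G.Adj a b → R (g a) (g b)) → False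

/-- `Y` joined in `B` to a large independent set has no `n` disjoint copies of `G` in `B` -/
def NoExt (G : SimpleGraph W) (B : V → V → Prop) (Y : Finset V) (n : ℕ) : Prop :=
  ∀ (D : Fin n → Finset W) (g : Fin n × W → V), (∀ i, Ind G (D i)ᶜ) →
    Set.InjOn g {p | p.2 ∈ D p.1} → (∀ i, ∀ a ∈ D i, g (i, a) ∈ Y) →
    (∀ i, ∀ a ∈ D i, ∀ b ∈ D i, G.Adj a b → B (g (i, a)) (g (i, b))) → False

theorem final_struct [Fintype V] {ι : Type} [DecidableEq ι] {R B : V → V → Prop}
    (hR : ∀ x y, R x y → R y x) (hB : ∀ x y, B x y → B y x) (hRB : ∀ x y, R x y ∨ B x y)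
    {k M n u : ℕ} (hk' : k = Fintype.card W) (hk1 : 1 ≤ k) (hM : 1 ≤ M)
    (hind : ∀ I : Finset W, Ind G I → I.card + 1 ≤ k)
    (J : Finset ι) (A : ι → Finset V) (hcl : ∀ i ∈ J, Clq R (A i))
    (hcard : ∀ i ∈ J, (A i).card = k * M)
    (hd : ∀ i ∈ J, ∀ j ∈ J, i ≠ j → Disjoint (A i) (A j))
    (hconn : ∀ i ∈ J, ∀ j ∈ J, i ≠ j → Conn R k (A i) (A j))
    (h1 : ¬ Pack G R univ n) (h2 : ¬ Pack G B univ n) (hu : k * n ≤ J.card * (k * M) + u)
    (hq : ∀ q₀, J.card ≤ q₀ + u → 1 ≤ q₀ ∧ n * (k - 1) + q₀ * (k * k) ≤ q₀ * (k * M)) :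
    ∃ Y : Finset V, Fintype.card V + 1 ≤ Y.card + k * n ∧ NoRed G R Y ∧ NoExt G B Y n := by
  classical
  let P : (ι → Finset V) → Prop := fun U => (∀ i ∈ J, Abs G R k (A i) (U i)) ∧
    (∀ i ∈ J, ∀ j ∈ J, Disjoint (A j) (U i)) ∧ (∀ i ∈ J, ∀ j ∈ J, i ≠ j → Disjoint (U i) (U j))
  have hsum : ∀ U : ι → Finset V, ∑ i ∈ J, ((A i).card + (U i).card) =
      J.card * (k * M) + ∑ i ∈ J, (U i).card := by
    intro U
    rw [sum_add_distrib, sum_congr rfl hcard, sum_const, smul_eq_mul]
  have hlt : ∀ U, P U → J.card * (k * M) + ∑ i ∈ J, (U i).card < k * n := by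
    rintro U ⟨p1, p2, p3⟩
    by_contra hc
    refine h1 ((chain' hR hk' hk1 J A U hcl p1 (fun i hi => p2 i hi i hi) (fun i hi j hj hij => ?_)
      hconn n (by rw [hsum]; omega)).mono (subset_univ _) le_rfl)
    rw [disjoint_union_left, disjoint_union_right, disjoint_union_right]
    exact ⟨⟨hd i hi j hj hij, p2 j hj i hi⟩, (p2 i hi j hj).symm, p3 i hi j hj hij⟩
  obtain ⟨U, hU, hmax⟩ := exists_max P (fun U => ∑ i ∈ J, (U i).card) u
    (fun U hU => by have := hlt U hU; omega)
    ⟨fun _ => ∅, fun i _ => ⟨∅, empty_subset _, 0, by simp, by simp, pack_zero _⟩, by simp,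
      by simp⟩
  have hw := hlt U hU
  obtain ⟨p1, p2, p3⟩ := hU
  set Y := univ \ J.biUnion (fun i => A i ∪ U i) with hY
  have hYm : ∀ v ∈ Y, ∀ i ∈ J, v ∉ A i ∧ v ∉ U i := by
    intro v hv i hi
    have := (mem_sdiff.1 hv).2
    simp only [mem_biUnion, mem_union, not_exists, not_and, not_or] at this
    exact this i hi
  set J₀ := J.filter (fun i => U i = ∅) with hJ₀
  have hJc : J.card ≤ J₀.card + u := by
    have e1 : J₀.card + (J.filter fun i => ¬ U i = ∅).card = J.card :=
      card_filter_add_card_filter_not _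
    have e2 : (J.filter fun i => ¬ U i = ∅).card ≤ ∑ i ∈ J, (U i).card := by
      rw [card_eq_sum_ones]
      refine le_trans (sum_le_sum fun i hi => ?_) (sum_le_sum_of_subset (filter_subset _ _))
      exact card_pos.2 (nonempty_iff_ne_empty.2 (mem_filter.1 hi).2)
    omega
  obtain ⟨q1, q2⟩ := hq _ hJc
  have key : ∀ i ∈ J₀, ∀ T ⊆ Y, T.Nonempty → ¬ Abs G R k (A i) T := by
    intro i hi T hT hne habs
    obtain ⟨hiJ, hi0⟩ := mem_filter.1 hi
    have hP : P (Function.update U i T) := by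
      refine ⟨fun j hj => ?_, fun j hj l hl => ?_, fun j hj l hl hjl => ?_⟩
      · by_cases e : j = i
        · subst e; rwa [Function.update_self]
        · rw [Function.update_of_ne e]; exact p1 j hj
      · by_cases e : j = i
        · subst e
          rw [Function.update_self]
          exact disjoint_right.2 fun v hv => (hYm v (hT hv) l hl).1
        · rw [Function.update_of_ne e]; exact p2 j hj l hl
      · by_cases e : j = i
        · subst e
          rw [Function.update_self, Function.update_of_ne hjl.symm]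
          exact disjoint_left.2 fun v hv => (hYm v (hT hv) l hl).2
        · by_cases e' : l = i
          · subst e'
            rw [Function.update_self, Function.update_of_ne e]
            exact disjoint_right.2 fun v hv => (hYm v (hT hv) j hj).2
          · rw [Function.update_of_ne e, Function.update_of_ne e']
            exact p3 j hj l hl hjl
    have h3 := hmax _ hP
    rw [← add_sum_erase J _ hiJ, ← add_sum_erase J _ hiJ, Function.update_self, hi0,
      sum_congr rfl (fun j hj => by rw [Function.update_of_ne (ne_of_mem_erase hj)])] at h3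
    have := card_pos.2 hne
    simp only [card_empty] at h3
    omega
  have hkM : k ≤ k * M := Nat.le_mul_of_pos_right _ hM
  refine ⟨Y, ?_, ?_, ?_⟩
  · have e1 : (univ : Finset V).card - (J.biUnion (fun i => A i ∪ U i)).card ≤ Y.card :=
      le_card_sdiff _ _
    have e2 : (J.biUnion (fun i => A i ∪ U i)).card ≤ ∑ i ∈ J, ((A i).card + (U i).card) :=
      card_biUnion_le.trans (sum_le_sum fun i _ => card_union_le _ _)
    rw [hsum] at e2
    rw [card_univ] at e1
    omega
  · intro C g hne hclo hinj hmem hadj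
    obtain ⟨i, hi⟩ : J₀.Nonempty := card_pos.1 q1
    have hiJ := (mem_filter.1 hi).1
    have hC : C.card ≤ k := hk' ▸ card_le_univ C
    obtain ⟨Z, hZ, cZ⟩ := exists_subset_card_eq (s := A i) (n := k - C.card)
      (by rw [hcard i hiJ]; omega)
    obtain ⟨f, f1, f2⟩ := exists_inj Cᶜ Z (by rw [card_compl]; omega)
    refine key i hi (C.image g) (fun v hv => ?_) (hne.image g) ⟨Z, hZ, 1, by omega, ?_, ?_⟩
    · obtain ⟨a, ha, rfl⟩ := mem_image.1 hv
      exact hmem a ha
    · rw [card_image_of_injOn hinj]; omega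
    · refine pack_one (fun a => if h : a ∈ C then g a else f ⟨a, mem_compl.2 h⟩)
        (fun a b e => ?_) (fun a => ?_) (fun a b hab => ?_)
      · by_cases ha : a ∈ C <;> by_cases hb : b ∈ C <;> simp only [ha, hb, dif_pos, dif_neg,
          not_false_eq_true] at e
        · exact hinj ha hb e
        · exact absurd (e ▸ hZ (f2 _)) (hYm _ (hmem a ha) i hiJ).1
        · exact absurd (e.symm ▸ hZ (f2 _)) (hYm _ (hmem b hb) i hiJ).1
        · exact congrArg Subtype.val (f1 e)
      · by_cases ha : a ∈ C <;> simp only [ha, dif_pos, dif_neg, not_false_eq_true]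
        · exact mem_union_left _ (mem_image_of_mem _ ha)
        · exact mem_union_right _ (f2 _)
      · by_cases ha : a ∈ C <;> by_cases hb : b ∈ C <;> simp only [ha, hb, dif_pos, dif_neg,
          not_false_eq_true]
        · exact hadj a ha b hb hab
        · exact absurd (hclo a ha b hab) hb
        · exact absurd (hclo b hb a hab.symm) ha
        · exact hcl i hiJ _ (hZ (f2 _)) _ (hZ (f2 _))
            fun e => hab.ne (congrArg Subtype.val (f1 e))
  · have low : ∀ i ∈ J₀, ∀ v ∈ Y, (nbr R v (A i)).card ≤ k := by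
      intro i hi v hv
      by_contra hc
      have hiJ := (mem_filter.1 hi).1
      obtain ⟨Z, hZ, cZ⟩ := exists_subset_card_eq (s := nbr R v (A i)) (n := k - 1) (by omega)
      have hZ' : Z ⊆ A i := hZ.trans (nbr_subset _ _ _)
      refine key i hi {v} (singleton_subset_iff.2 hv) (singleton_nonempty _)
        ⟨Z, hZ', 1, by omega, by rw [card_singleton]; omega, pack_clique hR ?_ ?_⟩
      · intro x hx y hy hxy
        rcases mem_union.1 hx with hx | hx <;> rcases mem_union.1 hy with hy | hy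
        · exact absurd ((mem_singleton.1 hx).trans (mem_singleton.1 hy).symm) hxy
        · rw [mem_singleton.1 hx]; exact (mem_nbr.1 (hZ hy)).2
        · rw [mem_singleton.1 hy]; exact hR _ _ (mem_nbr.1 (hZ hx)).2
        · exact hcl i hiJ x (hZ' hx) y (hZ' hy) hxy
      · rw [card_union_of_disjoint (disjoint_singleton_left.2
          fun h => (hYm v hv i hiJ).1 (hZ' h)), card_singleton]
        omega
    intro D g hD hinj hmem hadj
    have hP : ∀ i : Fin n, ∀ t ∈ J₀, ∃ P' ⊆ A t, k * M ≤ P'.card + k * k ∧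
        Join B ((D i).image fun a => g (i, a)) P' := by
      intro i t ht
      obtain ⟨P', e1, e2, e3⟩ := exists_common hRB (A t) ((D i).image fun a => g (i, a)) k
        (fun y hy => by
          obtain ⟨a, ha, rfl⟩ := mem_image.1 hy
          exact low t ht _ (hmem i a ha))
      refine ⟨P', e1, ?_, e3⟩
      have e4 : ((D i).image fun a => g (i, a)).card ≤ k :=
        card_image_le.trans (hk' ▸ card_le_univ _)
      have := Nat.mul_le_mul_left k e4
      rw [hcard t (mem_filter.1 ht).1] at e2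
      omega
    choose! P' hP1 hP2 hP3 using hP
    have hAv : ∀ i, n * (k - 1) ≤ (J₀.biUnion (P' i)).card := by
      intro i
      have e : (J₀.biUnion (P' i)).card = ∑ x ∈ J₀, (P' i x).card :=
        card_biUnion (fun s hs t ht hst => (hd s (mem_filter.1 hs).1 t (mem_filter.1 ht).1
          hst).mono (hP1 i s hs) (hP1 i t ht))
      have h5 : ∑ x ∈ J₀, k * M ≤ ∑ x ∈ J₀, ((P' i x).card + k * k) := sum_le_sum (hP2 i)
      rw [sum_add_distrib, sum_const, sum_const, smul_eq_mul, smul_eq_mul] at h5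
      omega
    have hcardι : Fintype.card {p : Fin n × W // p.2 ∉ D p.1} ≤ n * (k - 1) := by
      rw [Fintype.card_subtype]
      refine le_trans (card_le_card (t := univ.biUnion fun i : Fin n => {i} ×ˢ (D i)ᶜ)
        fun p hp => ?_) ?_
      · exact mem_biUnion.2 ⟨p.1, mem_univ _, mem_product.2 ⟨mem_singleton_self _,
          mem_compl.2 (mem_filter.1 hp).2⟩⟩
      · refine (card_biUnion_le_card_mul _ _ (k - 1) fun i _ => ?_).trans (by simp)
        have := hind _ (hD i)
        rw [card_product, card_singleton]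
        omega
    obtain ⟨ch, c1, c2⟩ := exists_choice
      (fun p : {p : Fin n × W // p.2 ∉ D p.1} => J₀.biUnion (P' p.1.1))
      (fun p => hcardι.trans (hAv _))
    have c3 : ∀ p, ch p ∉ Y := fun p hp => by
      obtain ⟨t, ht, h⟩ := mem_biUnion.1 (c2 p)
      exact (hYm _ hp t (mem_filter.1 ht).1).1 (hP1 _ t ht h)
    have c4 : ∀ i, ∀ a ∈ D i, ∀ b (hb : b ∉ D i), B (g (i, a)) (ch ⟨(i, b), hb⟩) := by
      intro i a ha b hb
      obtain ⟨t, ht, h⟩ := mem_biUnion.1 (c2 ⟨(i, b), hb⟩)
      exact hP3 i t ht _ (mem_image_of_mem _ ha) _ h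
    refine h2 ⟨fun p => if h : p.2 ∈ D p.1 then g p else ch ⟨p, h⟩, fun p q e => ?_,
      fun _ => mem_univ _, fun i a b hab => ?_⟩
    · by_cases ha : p.2 ∈ D p.1 <;> by_cases hb : q.2 ∈ D q.1 <;> simp only [ha, hb, dif_pos,
        dif_neg, not_false_eq_true] at e
      · exact hinj ha hb e
      · exact absurd (e ▸ hmem p.1 p.2 ha) (c3 _)
      · exact absurd (e.symm ▸ hmem q.1 q.2 hb) (c3 _)
      · exact congrArg Subtype.val (c1 e)
    · by_cases ha : a ∈ D i <;> by_cases hb : b ∈ D i <;> simp only [ha, hb, dif_pos, dif_neg,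
        not_false_eq_true]
      · exact hadj i a ha b hb hab
      · exact c4 i a ha b hb
      · exact hB _ _ (c4 i b hb a ha)
      · exact absurd hab (hD i a (mem_compl.2 ha) b (mem_compl.2 hb))

theorem gain_split {ι : Type} [DecidableEq ι] {R B : V → V → Prop} {M : ℕ} (T : Finset ι)
    (S : ι → Finset V) (hd : ∀ i ∈ T, ∀ j ∈ T, i ≠ j → Disjoint (S i) (S j))
    (hR : ∀ i ∈ T, Pack G R (S i) M) (hB : ∀ i ∈ T, Pack G B (S i) M) (g : ℕ) :
    (∃ J ⊆ T, T.card ≤ J.card + 2 * g ∧ ∀ i ∈ J, ∀ j ∈ J, i ≠ j →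
      ¬ (Pack G R (S i ∪ S j) (2 * M + 1) ∨ Pack G B (S i ∪ S j) (2 * M + 1))) ∨
    (∃ T' ⊆ T, ∃ g₁ g₂, T'.card = 2 * g ∧ g₁ + g₂ = g ∧
      Pack G R (T'.biUnion S) (T'.card * M + g₁) ∧ Pack G B (T'.biUnion S) (T'.card * M + g₂)) := by
  induction g with
  | zero => exact Or.inr ⟨∅, empty_subset _, 0, 0, rfl, rfl, by simpa using pack_zero _,
      by simpa using pack_zero _⟩
  | succ g ih =>
    rcases ih with ⟨J, h1, h2, h3⟩ | ⟨T', h1, g₁, g₂, c, hg, p1, p2⟩
    · exact Or.inl ⟨J, h1, by omega, h3⟩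
    · by_cases h : ∀ i ∈ T \ T', ∀ j ∈ T \ T', i ≠ j →
        ¬ (Pack G R (S i ∪ S j) (2 * M + 1) ∨ Pack G B (S i ∪ S j) (2 * M + 1))
      · refine Or.inl ⟨T \ T', sdiff_subset, ?_, h⟩
        have := le_card_sdiff T' T
        omega
      · push Not at h
        obtain ⟨i, hi, j, hj, hij, h⟩ := h
        obtain ⟨hi1, hi2⟩ := mem_sdiff.1 hi
        obtain ⟨hj1, hj2⟩ := mem_sdiff.1 hj
        have hc : (insert i (insert j T')).card = T'.card + 2 := by
          rw [card_insert_of_notMem (by simp [hij, hi2]), card_insert_of_notMem hj2]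
        have hdis : Disjoint (S i ∪ S j) (T'.biUnion S) := by
          rw [disjoint_biUnion_right]
          intro l hl
          rw [disjoint_union_left]
          exact ⟨hd i hi1 l (h1 hl) (fun e => hi2 (e ▸ hl)), hd j hj1 l (h1 hl)
            (fun e => hj2 (e ▸ hl))⟩
        have hun : (insert i (insert j T')).biUnion S = S i ∪ S j ∪ T'.biUnion S := by
          rw [biUnion_insert, biUnion_insert, union_assoc]
        have q1 := (hR i hi1).add (hR j hj1) (hd i hi1 j hj1 hij)
        have q2 := (hB i hi1).add (hB j hj1) (hd i hi1 j hj1 hij)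
        refine Or.inr ⟨insert i (insert j T'), insert_subset hi1 (insert_subset hj1 h1), ?_⟩
        rw [hc, hun, add_mul]
        rcases h with h | h
        · exact ⟨g₁ + 1, g₂, by omega, by omega, (h.add p1 hdis).mono (Subset.refl _) (by omega),
            (q2.add p2 hdis).mono (Subset.refl _) (by omega)⟩
        · exact ⟨g₁, g₂ + 1, by omega, by omega, (q1.add p1 hdis).mono (Subset.refl _) (by omega),
            (h.add p2 hdis).mono (Subset.refl _) (by omega)⟩

theorem structure_thm (G : SimpleGraph W) {I : Finset W} (hI : Ind G I) {e k : ℕ} (he : 1 ≤ e)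
    (hk : Fintype.card W = I.card + e) (hk' : k = Fintype.card W)
    (hind : ∀ I : Finset W, Ind G I → I.card + 1 ≤ k) :
    ∃ n₀ : ℕ, ∀ n, n₀ ≤ n → ∀ (V : Type) [Fintype V] [DecidableEq V] (R B : V → V → Prop),
    (∀ x y, R x y → R y x) → (∀ x y, B x y → B y x) → (∀ x y, R x y ∨ B x y) →
    (k + e) * n ≤ Fintype.card V + 1 → ¬ Pack G R univ n → ¬ Pack G B univ n →
    ∃ Y : Finset V, Fintype.card V + 1 ≤ Y.card + k * n ∧
      ((NoRed G R Y ∧ NoExt G B Y n) ∨ (NoRed G B Y ∧ NoExt G R Y n)) := by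
  obtain ⟨M, hM⟩ : ∃ M, k * k * (k * k) + k * (k * k) + 2 * (k * k) + 3 * k + 1 ≤ M := ⟨_, le_rfl⟩
  have hk1 : 1 ≤ k := by omega
  obtain ⟨n₂, hn₂⟩ := exists_tie G k e M he (by omega) hk'
  obtain ⟨u, hu⟩ : ∃ u, u = k * n₂ + 4 * n₂ * (k * M) := ⟨_, rfl⟩
  obtain ⟨c₁, hc₁⟩ : ∃ c, c = u + 4 * n₂ := ⟨_, rfl⟩
  obtain ⟨Q, hQ⟩ : ∃ Q, Q = k * (n₂ + c₁ * M) + 1 := ⟨_, rfl⟩
  refine ⟨n₂ + (Q + c₁) * M, fun n hn V _ _ R B hR hB hRB hV h1 h2 => ?_⟩
  classical
  let S : Finset V × Finset V → Finset V := fun t => t.1 ∪ t.2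
  let IsT : Finset V × Finset V → Prop := fun t =>
    Tie R B k e M t.1 t.2 ∨ Tie B R k e M t.1 t.2
  have pR : ∀ t, IsT t → Pack G R (S t) M := by
    rintro t (h | h)
    · exact (h.packR hR hk').mono subset_union_left le_rfl
    · refine (h.packB hR hI he hk hk' (by omega) (X := ∅) (by simp)).mono ?_ le_rfl
      simp [S, union_comm]
  have pB : ∀ t, IsT t → Pack G B (S t) M := by
    rintro t (h | h)
    · refine (h.packB hB hI he hk hk' (by omega) (X := ∅) (by simp)).mono ?_ le_rfl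
      simp [S, union_comm]
    · exact (h.packR hB hk').mono subset_union_left le_rfl
  have cS : ∀ t, IsT t → (S t).card = (k + e) * M := by
    rintro t (h | h) <;> rw [card_union_of_disjoint h.disj, h.cardA, h.cardC, add_mul]
  obtain ⟨T, ⟨hT, hTd⟩, hmax⟩ := exists_max
    (fun T : Finset (Finset V × Finset V) => (∀ t ∈ T, IsT t) ∧
      ∀ i ∈ T, ∀ j ∈ T, i ≠ j → Disjoint (S i) (S j)) card (Fintype.card (Finset V × Finset V))
    (fun T _ => card_le_univ T) ⟨∅, by simp, by simp⟩
  have hnq : n < n₂ + T.card * M := by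
    by_contra hc
    obtain ⟨n', rfl⟩ : ∃ n', n = n' + T.card * M := ⟨n - T.card * M, by omega⟩
    have e1 := le_card_sdiff (T.biUnion S) univ
    have e2 : (T.biUnion S).card ≤ T.card * ((k + e) * M) :=
      card_biUnion_le_card_mul _ _ _ fun t ht => (cS t (hT t ht)).le
    rw [card_univ] at e1
    have e3 : (k + e) * (n' + T.card * M) = (k + e) * n' + T.card * ((k + e) * M) := by ring
    obtain ⟨A, C, hsub, ht⟩ := hn₂ V R B hR hB hRB (univ \ T.biUnion S) n' (by omega) (by omega)
      (fun h => h1 ((h.add (pack_biUnion T S M hTd fun t ht => pR t (hT t ht))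
        sdiff_disjoint).mono (subset_univ _) le_rfl))
      (fun h => h2 ((h.add (pack_biUnion T S M hTd fun t ht => pB t (hT t ht))
        sdiff_disjoint).mono (subset_univ _) le_rfl))
    have hdis : ∀ t ∈ T, Disjoint (S (A, C)) (S t) := fun t ht' =>
      disjoint_left.2 fun v hv hv' => (mem_sdiff.1 (hsub hv)).2 (mem_biUnion.2 ⟨t, ht', hv'⟩)
    have hnot : (A, C) ∉ T := fun h => by
      have e4 := disjoint_self.1 (hdis _ h)
      have e5 := cS (A, C) ht
      rw [e4] at e5
      have : 0 < (k + e) * M := Nat.mul_pos (by omega) (by omega)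
      simp only [bot_eq_empty, card_empty] at e5
      omega
    have := hmax (insert (A, C) T) ⟨fun t ht' => by
        rcases mem_insert.1 ht' with rfl | ht'
        · exact ht
        · exact hT t ht', fun i hi j hj hij => by
        rcases mem_insert.1 hi with rfl | hi' <;> rcases mem_insert.1 hj with rfl | hj'
        · exact absurd rfl hij
        · exact hdis j hj'
        · exact (hdis i hi').symm
        · exact hTd i hi' j hj' hij⟩
    rw [card_insert_of_notMem hnot] at this
    omega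
  have hq : Q + c₁ < T.card := by
    by_contra hc
    have := Nat.mul_le_mul_right M (not_lt.1 hc)
    omega
  rcases gain_split (G := G) T S hTd (fun t ht => pR t (hT t ht)) (fun t ht => pB t (hT t ht))
    (2 * n₂) with ⟨J, hJ, cJ, hng⟩ | ⟨T', hT', g₁, g₂, c, hg, p1, p2⟩
  · have hu' : k * n ≤ J.card * (k * M) + u := by
      have e1 : k * n ≤ k * (n₂ + T.card * M) := Nat.mul_le_mul_left _ hnq.le
      have e2 : T.card * (k * M) ≤ (J.card + 2 * (2 * n₂)) * (k * M) := Nat.mul_le_mul_right _ cJ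
      nlinarith
    have hq' : ∀ q₀, J.card ≤ q₀ + u → 1 ≤ q₀ ∧ n * (k - 1) + q₀ * (k * k) ≤ q₀ * (k * M) := by
      intro q₀ h
      have e1 : T.card ≤ q₀ + c₁ := by omega
      have e2 : Q ≤ q₀ := by omega
      refine ⟨by omega, ?_⟩
      obtain ⟨k', rfl⟩ : ∃ k', k = k' + 1 := ⟨k - 1, by omega⟩
      rw [Nat.add_sub_cancel]
      have e3 : n ≤ n₂ + (q₀ + c₁) * M := by
        have := Nat.mul_le_mul_right M e1
        omega
      have e4 : n * k' ≤ (n₂ + (q₀ + c₁) * M) * k' := Nat.mul_le_mul_right _ e3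
      have e5 : q₀ * ((k' + 1) * (k' + 1) + 1) ≤ q₀ * M := Nat.mul_le_mul_left _ (by omega)
      nlinarith
    have hsame : (∀ t ∈ J, Tie R B k e M t.1 t.2) ∨ (∀ t ∈ J, Tie B R k e M t.1 t.2) := by
      by_contra hc
      push Not at hc
      obtain ⟨⟨t₁, m₁, n₁⟩, ⟨t₂, m₂, n₂'⟩⟩ := hc
      have a₁ := (hT t₁ (hJ m₁)).resolve_left n₁
      have a₂ := (hT t₂ (hJ m₂)).resolve_right n₂'
      have hne : t₂ ≠ t₁ := fun e => n₁ (e ▸ a₂)
      exact hng t₂ m₂ t₁ m₁ hne (gain1 hR hB hRB hI he hk hk' hM a₂ a₁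
        (hTd t₂ (hJ m₂) t₁ (hJ m₁) hne))
    have hd' : ∀ i ∈ J, ∀ j ∈ J, i ≠ j → Disjoint i.1 j.1 := fun i hi j hj hij =>
      (hTd i (hJ hi) j (hJ hj) hij).mono subset_union_left subset_union_left
    rcases hsame with h | h
    · obtain ⟨Y, e1, e2⟩ := final_struct hR hB hRB hk' hk1 (by omega) hind J Prod.fst
        (fun t ht => (h t ht).clA) (fun t ht => (h t ht).cardA) hd'
        (fun i hi j hj hij => by
          by_contra hc
          exact hng i hi j hj hij (gain2 hR hB hRB hI he hk hk' hM (h i hi) (h j hj)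
            (hTd i (hJ hi) j (hJ hj) hij) hc)) h1 h2 hu' hq'
      exact ⟨Y, e1, Or.inl e2⟩
    · obtain ⟨Y, e1, e2⟩ := final_struct hB hR (fun x y => (hRB x y).symm) hk' hk1 (by omega)
        hind J Prod.fst (fun t ht => (h t ht).clA) (fun t ht => (h t ht).cardA) hd'
        (fun i hi j hj hij => by
          by_contra hc
          exact hng i hi j hj hij (gain2 hB hR (fun x y => (hRB x y).symm) hI he hk hk' hM
            (h i hi) (h j hj) (hTd i (hJ hi) j (hJ hj) hij) hc).symm) h2 h1 hu' hq'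
      exact ⟨Y, e1, Or.inr e2⟩
  · exfalso
    have hdis : Disjoint (T'.biUnion S) ((T \ T').biUnion S) := by
      rw [disjoint_biUnion_left]
      intro i hi
      rw [disjoint_biUnion_right]
      intro j hj
      exact hTd i (hT' hi) j (mem_sdiff.1 hj).1 fun e => (mem_sdiff.1 hj).2 (e ▸ hi)
    have hTd' : ∀ i ∈ T \ T', ∀ j ∈ T \ T', i ≠ j → Disjoint (S i) (S j) :=
      fun i hi j hj => hTd i (mem_sdiff.1 hi).1 j (mem_sdiff.1 hj).1
    have hc : T.card * M = T'.card * M + (T \ T').card * M := by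
      rw [← add_mul, add_comm, card_sdiff_add_card_eq_card hT']
    by_cases hg1 : n₂ ≤ g₁
    · exact h1 ((p1.add (pack_biUnion _ S M hTd' fun t ht => pR t (hT t (mem_sdiff.1 ht).1))
        hdis).mono (subset_univ _) (by omega))
    · exact h2 ((p2.add (pack_biUnion _ S M hTd' fun t ht => pB t (hT t (mem_sdiff.1 ht).1))
        hdis).mono (subset_univ _) (by omega))

end Pool.Agent.H243Z.RM
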