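import Pool.Agent.H243Z.RM.Basic

set_option autoImplicit false
set_option linter.unusedSectionVars false

open Finset

namespace Pool.Agent.H243Z.RM

variable {V : Type} [DecidableEq V]
variable {W : Type} [Fintype W] [DecidableEq W] {G : SimpleGraph W}

/-- a super-tie: an `R`-clique `A` and a `B`-clique `C`, completely joined in `B` -/
structure Tie (R B : V → V → Prop) (k e M : ℕ) (A C : Finset V) : Prop where
  disj : Disjoint A C
  cardA : A.card = k * M
  cardC : C.card = e * M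
  clA : Clq R A
  clC : Clq B C
  join : Join B C A

def Conn (R : V → V → Prop) (k : ℕ) (A A' : Finset V) : Prop :=
  ∃ Y ⊆ A, Y.card = 2 * k ∧ ∀ y ∈ Y, k * k + 2 * k ≤ (nbr R y A').card

section
variable {R B : V → V → Prop} {I : Finset W} {e M k : ℕ}

theorem Tie.packR (hR : ∀ x y, R x y → R y x) (hk' : k = Fintype.card W) {A C : Finset V}
    (t : Tie R B k e M A C) : Pack G R A M :=
  pack_clique hR t.clA (by rw [t.cardA, hk'])

theorem Tie.packB (hB : ∀ x y, B x y → B y x) (hI : Ind G I) (he : 1 ≤ e)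
    (hk : Fintype.card W = I.card + e) (hk' : k = Fintype.card W) (hM : k ≤ M) {A C X : Finset V}
    (t : Tie R B k e M A C) (hX : X.card ≤ k) : Pack G B (C ∪ (A \ X)) M := by
  refine pack_tie hB hI hk M (t.disj.symm.mono_right sdiff_subset) t.clC
    (t.join.mono (Subset.refl _) sdiff_subset) t.cardC.ge ?_
  have h1 := le_card_sdiff X A
  have h2 := t.cardA
  have h3 : k * M = I.card * M + e * M := by rw [hk', hk, add_mul]
  have h4 : M ≤ e * M := Nat.le_mul_of_pos_left _ he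
  omega

theorem gain_absorb (hR : ∀ x y, R x y → R y x) (hk' : k = Fintype.card W) (hk1 : 1 ≤ k)
    {A Y : Finset V} (hA : Clq R A) (hc : A.card = k * M) (hd : Disjoint Y A) (hY : Y.card = k)
    (hdeg : ∀ y ∈ Y, k * k ≤ (nbr R y A).card) : Pack G R (A ∪ Y) (M + 1) := by
  subst hk'
  exact pack_absorb0 hR hk1 hd hA (by rwa [hY]) (by rw [hc, hY, mul_add, mul_one])

theorem gain1a (hR : ∀ x y, R x y → R y x) (hI : Ind G I) (he : 1 ≤ e)
    (hk : Fintype.card W = I.card + e) (hk' : k = Fintype.card W) (hM : k ≤ M)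
    {A₁ C₁ A₂ C₂ Y : Finset V} (t₁ : Tie R B k e M A₁ C₁) (t₂ : Tie B R k e M A₂ C₂)
    (hd : Disjoint (A₁ ∪ C₁) (A₂ ∪ C₂)) (hY : Y ⊆ A₂) (hc : Y.card = k)
    (hdeg : ∀ y ∈ Y, k * k ≤ (nbr R y A₁).card) :
    Pack G R ((A₁ ∪ C₁) ∪ (A₂ ∪ C₂)) (2 * M + 1) := by
  have hd2 := t₂.disj
  have p1 := gain_absorb (G := G) hR hk' (by omega) t₁.clA t₁.cardA (Y := Y)
    (by rw [disjoint_left] at hd ⊢; intro a; have := @hd a; grind) hc hdeg
  have p2 := t₂.packB (G := G) hR hI he hk hk' hM (X := Y) hc.le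
  refine (p1.add p2 ?_).mono ?_ (by omega)
  · rw [disjoint_left] at hd hd2 ⊢
    intro a; have := @hd a; grind
  · grind

theorem gain1 (hR : ∀ x y, R x y → R y x) (hB : ∀ x y, B x y → B y x)
    (hRB : ∀ x y, R x y ∨ B x y) (hI : Ind G I) (he : 1 ≤ e)
    (hk : Fintype.card W = I.card + e) (hk' : k = Fintype.card W)
    (hM : k * k * (k * k) + k * (k * k) + 2 * (k * k) + 3 * k + 1 ≤ M)
    {A₁ C₁ A₂ C₂ : Finset V} (t₁ : Tie R B k e M A₁ C₁) (t₂ : Tie B R k e M A₂ C₂)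
    (hd : Disjoint (A₁ ∪ C₁) (A₂ ∪ C₂)) :
    Pack G R ((A₁ ∪ C₁) ∪ (A₂ ∪ C₂)) (2 * M + 1) ∨
      Pack G B ((A₁ ∪ C₁) ∪ (A₂ ∪ C₂)) (2 * M + 1) := by
  have hkM : M ≤ k * M := Nat.le_mul_of_pos_left _ (by omega)
  rcases dichotomy R A₁ A₂ (k * k) k with ⟨Y, hY, hc, hdeg⟩ | ⟨Q, hQ, hc, hdeg⟩
  · exact Or.inl (gain1a hR hI he hk hk' (by omega) t₁ t₂ hd hY hc hdeg)
  · right
    have := t₂.cardA
    obtain ⟨Y, hY, hcY⟩ := exists_subset_card_eq (s := Q) (n := k * k) (by omega)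
    obtain ⟨P, hP, hcP, hJ⟩ := exists_common hRB A₁ Y (k * k) (fun y hy => hdeg y (hY hy))
    have := t₁.cardA
    rw [hcY] at hcP
    obtain ⟨Z, hZ, hcZ⟩ := exists_subset_card_eq (s := P) (n := k) (by omega)
    rw [union_comm]
    refine gain1a hB hI he hk hk' (by omega) t₂ t₁ hd.symm (hZ.trans hP) hcZ fun z hz => ?_
    rw [← hcY]
    exact card_le_card fun y hy => mem_nbr.2 ⟨hQ (hY hy), hB _ _ (hJ y hy z (hZ hz))⟩

theorem gain2 (hR : ∀ x y, R x y → R y x) (hB : ∀ x y, B x y → B y x)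
    (hRB : ∀ x y, R x y ∨ B x y) (hI : Ind G I) (he : 1 ≤ e)
    (hk : Fintype.card W = I.card + e) (hk' : k = Fintype.card W)
    (hM : k * k * (k * k) + k * (k * k) + 2 * (k * k) + 3 * k + 1 ≤ M)
    {A₁ C₁ A₂ C₂ : Finset V} (t₁ : Tie R B k e M A₁ C₁) (t₂ : Tie R B k e M A₂ C₂)
    (hd : Disjoint (A₁ ∪ C₁) (A₂ ∪ C₂)) (hn : ¬ Conn R k A₁ A₂) :
    Pack G R ((A₁ ∪ C₁) ∪ (A₂ ∪ C₂)) (2 * M + 1) ∨
      Pack G B ((A₁ ∪ C₁) ∪ (A₂ ∪ C₂)) (2 * M + 1) := by
  have hkM : M ≤ k * M := Nat.le_mul_of_pos_left _ (by omega)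
  have heM : M ≤ e * M := Nat.le_mul_of_pos_left _ he
  have hd1 := t₁.disj
  have hd2 := t₂.disj
  have c1 := t₁.cardA
  have c2 := t₂.cardA
  have c3 := t₂.cardC
  obtain ⟨Q₁, hQ₁, hcQ₁, hdeg₁⟩ := (dichotomy R A₂ A₁ (k * k + 2 * k) (2 * k)).resolve_left hn
  rcases dichotomy R A₁ C₂ (k * k) k with ⟨Y, hY, hc, hdeg⟩ | ⟨Q, hQ, hc, hdeg⟩
  · left
    have p1 := gain_absorb (G := G) hR hk' (by omega) t₁.clA t₁.cardA (Y := Y)
      (by rw [disjoint_left] at hd ⊢; intro a; have := @hd a; grind) hc hdeg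
    have p2 := t₂.packR (G := G) hR hk'
    refine (p1.add p2 ?_).mono ?_ (by omega)
    · rw [disjoint_left] at hd hd2 ⊢
      intro a; have := @hd a; grind
    · grind
  · right
    obtain ⟨Y, hY, hcY⟩ := exists_subset_card_eq (s := Q) (n := k * k) (by omega)
    obtain ⟨P, hP, hcP, hJ⟩ := exists_common hRB Q₁ Y (k * k) (fun y hy =>
      le_trans (card_le_card fun z hz =>
        mem_nbr.2 ⟨hQ₁ (mem_nbr.1 hz).1, (mem_nbr.1 hz).2⟩) (hdeg y (hY hy)))
    rw [hcY] at hcP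
    obtain ⟨X, hX, hcX⟩ := exists_subset_card_eq (s := P) (n := e) (by omega)
    obtain ⟨Z, hZ, hcZ, hJ'⟩ := exists_common hRB A₂ X (k * k + 2 * k)
      (fun y hy => hdeg₁ y (hP (hX hy)))
    have hXA : X ⊆ A₁ := hX.trans (hP.trans hQ₁)
    have hek : e ≤ k := by omega
    have p1 : Pack G B (C₂ ∪ X ∪ Z) (M + 1) := by
      refine pack_absorb hB hI he hk X (M + 1) (hd2.symm.mono_right hZ) ?_ ?_ t₂.clC
        (t₂.join.mono (Subset.refl _) hZ) hJ' (fun x hx => ?_) ?_ ?_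
      · rw [disjoint_left] at hd ⊢
        intro a; have := @hd a; grind
      · rw [disjoint_left] at hd ⊢
        intro a; have := @hd a; grind
      · calc e * X.card ≤ k * k := by rw [hcX]; exact Nat.mul_le_mul hek hek
          _ = Y.card := hcY.symm
          _ ≤ _ := card_le_card fun y hy =>
            mem_nbr.2 ⟨hQ (hY hy), hB _ _ (hJ y hy x (hX hx))⟩
      · rw [c3, hcX, mul_add, mul_one]
      · have h3 : k * M = I.card * M + e * M := by rw [hk', hk, add_mul]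
        have h4 : (k * k + 2 * k) * X.card ≤ k * (k * k) + 2 * (k * k) := by
          rw [hcX]
          calc (k * k + 2 * k) * e ≤ (k * k + 2 * k) * k := Nat.mul_le_mul_left _ hek
            _ = _ := by ring
        rw [mul_add, mul_one]
        omega
    have p2 := t₁.packB (G := G) hB hI he hk hk' (by omega) (X := X) (by omega)
    refine (p1.add p2 ?_).mono ?_ (by omega)
    · rw [disjoint_left] at hd hd1 ⊢
      intro a; have := @hd a; grind
    · grind

theorem pack_of_no_clique (hB : ∀ x y, B x y → B y x) {L ρ : ℕ}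
    (hρ : ∀ S : Finset V, ρ ≤ S.card → (∃ A ⊆ S, A.card = L ∧ Clq R A) ∨
      (∃ A ⊆ S, A.card = Fintype.card W ∧ Clq B A)) (m : ℕ) :
    ∀ S : Finset V, ρ + Fintype.card W * m ≤ S.card →
      (∃ A ⊆ S, A.card = L ∧ Clq R A) ∨ Pack G B S m := by
  induction m with
  | zero => exact fun S _ => Or.inr (pack_zero _)
  | succ m ih =>
    intro S hS
    rw [mul_add, mul_one] at hS
    rcases hρ S (by omega) with h | ⟨A, hA, hc, hcl⟩
    · exact Or.inl h
    · rcases ih (S \ A) (by rw [card_sdiff_of_subset hA]; omega) with ⟨A', hA', h⟩ | h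
      · exact Or.inl ⟨A', hA'.trans sdiff_subset, h⟩
      · refine Or.inr ((h.add (pack_clique (m := 1) hB hcl (by omega)) sdiff_disjoint).mono ?_
          le_rfl)
        grind

end

theorem exists_tie (G : SimpleGraph W) (k e M : ℕ) (he : 1 ≤ e) (hek : e ≤ k)
    (hk' : k = Fintype.card W) :
    ∃ n₂ : ℕ, ∀ (V : Type) [DecidableEq V] (R B : V → V → Prop),
    (∀ x y, R x y → R y x) → (∀ x y, B x y → B y x) → (∀ x y, R x y ∨ B x y) →
    ∀ (S : Finset V) (n : ℕ), n₂ ≤ n → (k + e) * n ≤ S.card + 1 → ¬ Pack G R S n →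
      ¬ Pack G B S n → ∃ A C, A ∪ C ⊆ S ∧ (Tie R B k e M A C ∨ Tie B R k e M A C) := by
  set L := 2 ^ (2 * (k * M)) * (k * M) + 2 * (k * M) with hL
  obtain ⟨ρ, hρ⟩ := ramsey L (Fintype.card W)
  refine ⟨ρ + L + 1, fun V _ R B hR hB hRB S n hn hS h1 h2 => ?_⟩
  have hen : n ≤ e * n := Nat.le_mul_of_pos_left _ he
  rw [add_mul, hk'] at hS
  obtain ⟨A', hA', cA, clA⟩ := (pack_of_no_clique (G := G) hB (hρ V R B hR hB hRB) n S
    (by omega)).resolve_right h2
  obtain ⟨C', hC', cC, clC⟩ := (pack_of_no_clique (G := G) hR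
    (hρ V B R hB hR (fun x y => (hRB x y).symm)) n (S \ A')
    (by rw [card_sdiff_of_subset hA']; omega)).resolve_right
    (fun h => h1 (h.mono sdiff_subset le_rfl))
  obtain ⟨X, hX, Y, hY, cX, cY, hJ⟩ := bip_ramsey hRB (k * M) A' C' (by omega) (by omega)
  have hd : Disjoint X Y := by
    rw [disjoint_left]
    grind
  have hle : e * M ≤ k * M := Nat.mul_le_mul_right _ hek
  rcases hJ with hJ | hJ
  · obtain ⟨X', hX', cX'⟩ := exists_subset_card_eq (s := X) (n := e * M) (by omega)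
    refine ⟨Y, X', by grind, Or.inr ⟨hd.symm.mono_right hX', cY, cX', clC.mono hY,
      clA.mono (hX'.trans hX), fun x hx y hy => hR _ _ (hJ y hy x (hX' hx))⟩⟩
  · obtain ⟨Y', hY', cY'⟩ := exists_subset_card_eq (s := Y) (n := e * M) (by omega)
    refine ⟨X, Y', by grind, Or.inl ⟨hd.mono_right hY', cX, cY', clA.mono hX,
      clC.mono (hY'.trans hY), hJ.mono hY' (Subset.refl _)⟩⟩

/-- `U` can be absorbed into the clique `A` -/
def Abs (G : SimpleGraph W) (R : V → V → Prop) (k : ℕ) (A U : Finset V) : Prop :=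
  ∃ Y ⊆ A, ∃ c, Y.card ≤ k ∧ Y.card + U.card = k * c ∧ Pack G R (U ∪ Y) c

theorem chain {ι : Type} [DecidableEq ι] {R : V → V → Prop} (hR : ∀ x y, R x y → R y x) {k : ℕ}
    (hk' : k = Fintype.card W) (hk1 : 1 ≤ k) (J₀ : Finset ι) (A U : ι → Finset V)
    (hcl : ∀ i ∈ J₀, Clq R (A i)) (habs : ∀ i ∈ J₀, Abs G R k (A i) (U i))
    (hAU : ∀ i ∈ J₀, Disjoint (A i) (U i))
    (hd : ∀ i ∈ J₀, ∀ j ∈ J₀, i ≠ j → Disjoint (A i ∪ U i) (A j ∪ U j))
    (hconn : ∀ i ∈ J₀, ∀ j ∈ J₀, i ≠ j → Conn R k (A i) (A j)) (J : Finset ι) :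
    J ⊆ J₀ → ∀ j ∈ J₀, j ∉ J → ∀ X : Finset V, X.card ≤ k →
      Disjoint X (A j ∪ U j) → (∀ i ∈ J, Disjoint X (A i ∪ U i)) →
      (∀ x ∈ X, k * k + 2 * k ≤ (nbr R x (A j)).card) → ∀ m,
      k * m ≤ X.card + ((A j).card + (U j).card) + ∑ i ∈ J, ((A i).card + (U i).card) →
      Pack G R (X ∪ (A j ∪ U j) ∪ J.biUnion fun i => A i ∪ U i) m := by
  have loc : ∀ j ∈ J₀, ∀ X : Finset V, X.card ≤ k → Disjoint X (A j ∪ U j) →
      (∀ x ∈ X, k * k + 2 * k ≤ (nbr R x (A j)).card) → ∀ Y ⊆ A j, ∀ c, Y.card ≤ k →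
      Y.card + (U j).card = k * c → Pack G R (U j ∪ Y) c → ∀ X' ⊆ A j \ Y, X'.card ≤ k → ∀ m,
      k * m + X'.card ≤ X.card + ((A j).card + (U j).card) →
      Pack G R ((X ∪ (A j ∪ U j)) \ X') m := by
    intro j hj X hX hXd hdeg Y hY c cY ec hp X' hX' cX' m hm
    have hAUj := hAU j hj
    by_cases hmc : m ≤ c
    · refine hp.mono ?_ hmc
      rw [disjoint_left] at hAUj
      grind
    · obtain ⟨m', rfl⟩ : ∃ m', m = c + m' := ⟨m - c, by omega⟩
      have p2 : Pack G R (((A j \ Y) \ X') ∪ X) m' := by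
        refine pack_absorb0 hR (by omega) ?_ ((hcl j hj).mono (sdiff_subset.trans sdiff_subset))
          (fun x hx => ?_) ?_
        · rw [disjoint_left] at hXd ⊢
          intro a; have := @hXd a; grind
        · have h1 := hdeg x hx
          have h2 := nbr_sdiff R x (A j) Y
          have h3 := nbr_sdiff R x (A j \ Y) X'
          have h4 : Fintype.card W * X.card ≤ k * k := by
            rw [← hk']; exact Nat.mul_le_mul_left _ hX
          omega
        · rw [card_sdiff_of_subset hX', card_sdiff_of_subset hY, ← hk']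
          have h1 := card_le_card hX'
          rw [card_sdiff_of_subset hY] at h1
          have h2 := card_le_card hY
          rw [mul_add] at hm
          omega
      refine (hp.add p2 ?_).mono ?_ le_rfl
      · rw [disjoint_left] at hAUj hXd ⊢
        intro a; have := @hXd a; grind
      · rw [disjoint_left] at hAUj hXd
        grind
  induction J using Finset.induction_on with
  | empty =>
    intro _ j hj _ X hX hXd _ hdeg m hm
    obtain ⟨Y, hY, c, cY, ec, hp⟩ := habs j hj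
    simpa using loc j hj X hX hXd hdeg Y hY c cY ec hp ∅ (empty_subset _) (by simp) m
      (by simpa using hm)
  | insert i J hi ih =>
    intro hJ j hj hjJ X hX hXd hXd' hdeg m hm
    have hi0 : i ∈ J₀ := hJ (mem_insert_self _ _)
    have hji : j ≠ i := fun e => hjJ (e ▸ mem_insert_self _ _)
    obtain ⟨Y, hY, c, cY, ec, hp⟩ := habs j hj
    obtain ⟨Q, hQ, cQ, hQd⟩ := hconn j hj i hi0 hji
    set w := X.card + ((A j).card + (U j).card) with hw
    have hρ : w % k < k := Nat.mod_lt _ hk1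
    have hdiv : k * (w / k) + w % k = w := Nat.div_add_mod w k
    obtain ⟨X', hX', cX'⟩ := exists_subset_card_eq (s := Q \ Y) (n := w % k)
      (by have := le_card_sdiff Y Q; omega)
    have hX'' : X' ⊆ A j \ Y := hX'.trans (sdiff_subset_sdiff hQ (Subset.refl _))
    have hXA : X' ⊆ A j ∪ U j := hX''.trans (sdiff_subset.trans subset_union_left)
    have p1 := loc j hj X hX hXd hdeg Y hY c cY ec hp X' hX'' (by omega) (w / k) (by omega)
    by_cases hmc : m ≤ w / k
    · refine p1.mono ?_ hmc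
      grind
    · obtain ⟨m', rfl⟩ : ∃ m', m = w / k + m' := ⟨m - w / k, by omega⟩
      rw [sum_insert hi, mul_add] at hm
      have p2 := ih ((subset_insert _ _).trans hJ) i hi0 hi X' (by omega)
        ((hd j hj i hi0 hji).mono_left hXA)
        (fun l hl => (hd j hj l (hJ (mem_insert_of_mem hl))
          (fun e => hjJ (e ▸ mem_insert_of_mem hl))).mono_left hXA)
        (fun x hx => hQd x (mem_sdiff.1 (hX' hx)).1) m' (by omega)
      refine (p1.add p2 ?_).mono ?_ le_rfl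
      · rw [disjoint_union_right, disjoint_union_right]
        refine ⟨⟨sdiff_disjoint, ?_⟩, ?_⟩
        · refine Disjoint.mono_left sdiff_subset ?_
          rw [disjoint_union_left]
          exact ⟨hXd' i (mem_insert_self _ _), hd j hj i hi0 hji⟩
        · refine Disjoint.mono_left sdiff_subset ?_
          rw [disjoint_biUnion_right]
          intro l hl
          rw [disjoint_union_left]
          exact ⟨hXd' l (mem_insert_of_mem hl), hd j hj l (hJ (mem_insert_of_mem hl))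
            (fun e => hjJ (e ▸ mem_insert_of_mem hl))⟩
      · rw [biUnion_insert]
        grind

theorem chain' {ι : Type} [DecidableEq ι] {R : V → V → Prop} (hR : ∀ x y, R x y → R y x) {k : ℕ}
    (hk' : k = Fintype.card W) (hk1 : 1 ≤ k) (J₀ : Finset ι) (A U : ι → Finset V)
    (hcl : ∀ i ∈ J₀, Clq R (A i)) (habs : ∀ i ∈ J₀, Abs G R k (A i) (U i))
    (hAU : ∀ i ∈ J₀, Disjoint (A i) (U i))
    (hd : ∀ i ∈ J₀, ∀ j ∈ J₀, i ≠ j → Disjoint (A i ∪ U i) (A j ∪ U j))
    (hconn : ∀ i ∈ J₀, ∀ j ∈ J₀, i ≠ j → Conn R k (A i) (A j)) (m : ℕ)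
    (hm : k * m ≤ ∑ i ∈ J₀, ((A i).card + (U i).card)) :
    Pack G R (J₀.biUnion fun i => A i ∪ U i) m := by
  rcases J₀.eq_empty_or_nonempty with rfl | ⟨j, hj⟩
  · obtain rfl : m = 0 := by
      simp only [sum_empty, nonpos_iff_eq_zero, mul_eq_zero] at hm
      omega
    exact pack_zero _
  · have := chain (G := G) hR hk' hk1 J₀ A U hcl habs hAU hd hconn (J₀.erase j) (erase_subset _ _)
      j hj (notMem_erase _ _) ∅ (by simp) (by simp) (by simp) (by simp) m
      (by rw [card_empty, zero_add, add_sum_erase J₀ (fun i => (A i).card + (U i).card) hj]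
          exact hm)
    refine this.mono ?_ le_rfl
    intro x hx
    simp only [empty_union, mem_union, mem_biUnion, mem_erase] at hx ⊢
    rcases hx with hx | ⟨i, hi, hx⟩
    · exact ⟨j, hj, hx⟩
    · exact ⟨i, hi.2, hx⟩

end Pool.Agent.H243Z.RM
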